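import Pool.Agent.H12.QN.Stmts

set_option autoImplicit false

namespace Pool.QN

open Finset MeasureTheory

private lemma grm_core (μ : Measure ℝ) [IsFiniteMeasure μ] (K : ℕ) (u : ℕ → ℝ → ℂ) (f : ℝ → ℂ)
    (hu : ∀ k, AEStronglyMeasurable (u k) μ) (hu1 : ∀ k x, ‖u k x‖ ≤ 1)
    (hf : AEStronglyMeasurable f μ) (M : ℝ) (hM : ∀ x, ‖f x‖ ≤ M) :
    (∑ k ∈ range K, ‖∫ x, f x * u k x ∂μ‖ ^ 2) ^ 2 ≤
    (∫ x, ‖f x‖ ∂μ) ^ 2 *
      ∫ p, ‖f p.1‖ * ‖f p.2‖ * ‖∑ k ∈ range K, u k p.1 * (starRingEnd ℂ) (u k p.2)‖ ^ 2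
        ∂(μ.prod μ) := by
  have hM0 : 0 ≤ M := (norm_nonneg _).trans (hM 0)
  -- measurability
  have hf1 : AEStronglyMeasurable (fun p : ℝ × ℝ => f p.1) (μ.prod μ) := hf.comp_fst
  have hf2 : AEStronglyMeasurable (fun p : ℝ × ℝ => f p.2) (μ.prod μ) := hf.comp_snd
  have hu1' : ∀ k, AEStronglyMeasurable (fun p : ℝ × ℝ => u k p.1) (μ.prod μ) :=
    fun k => (hu k).comp_fst
  have hu2' : ∀ k, AEStronglyMeasurable (fun p : ℝ × ℝ => (starRingEnd ℂ) (u k p.2)) (μ.prod μ) :=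
    fun k => Complex.continuous_conj.comp_aestronglyMeasurable ((hu k).comp_snd)
  set Ker : ℝ × ℝ → ℂ := fun p => ∑ k ∈ range K, u k p.1 * (starRingEnd ℂ) (u k p.2) with hKer
  have hKm : AEStronglyMeasurable Ker (μ.prod μ) := by
    have h := Finset.aestronglyMeasurable_fun_sum (range K)
      (fun k _ => (hu1' k).mul (hu2' k))
    exact h
  have hKb : ∀ p, ‖Ker p‖ ≤ K := by
    intro p
    calc ‖Ker p‖ ≤ ∑ k ∈ range K, ‖u k p.1 * (starRingEnd ℂ) (u k p.2)‖ := norm_sum_le _ _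
      _ ≤ ∑ _k ∈ range K, (1 : ℝ) := by
        apply Finset.sum_le_sum
        intro k _
        rw [norm_mul, RCLike.norm_conj]
        exact mul_le_one₀ (hu1 _ _) (norm_nonneg _) (hu1 _ _)
      _ = K := by simp
  set g : ℝ × ℝ → ℝ := fun p => ‖f p.1‖ * ‖f p.2‖ with hg
  have hg0 : ∀ p, 0 ≤ g p := fun p => by positivity
  have hgb : ∀ p, g p ≤ M * M := fun p =>
    mul_le_mul (hM _) (hM _) (norm_nonneg _) hM0
  have hgm : AEStronglyMeasurable g (μ.prod μ) := hf1.norm.mul hf2.norm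
  have hint : ∀ j : ℕ, Integrable (fun p => g p * ‖Ker p‖ ^ j) (μ.prod μ) := by
    intro j
    refine Integrable.of_bound (hgm.mul (hKm.norm.pow j)) (M * M * (K : ℝ) ^ j)
      (Filter.Eventually.of_forall fun p => ?_)
    rw [Real.norm_eq_abs, abs_of_nonneg (mul_nonneg (hg0 p) (by positivity))]
    exact mul_le_mul (hgb p) (pow_le_pow_left₀ (norm_nonneg _) (hKb p) j) (by positivity)
      (by positivity)
  set A : ℝ := ∫ p, g p * ‖Ker p‖ ∂(μ.prod μ) with hA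
  set G : ℝ := ∫ p, g p ∂(μ.prod μ) with hG
  set H : ℝ := ∫ p, g p * ‖Ker p‖ ^ 2 ∂(μ.prod μ) with hH
  have hGe : G = (∫ x, ‖f x‖ ∂μ) ^ 2 := by
    rw [hG, hg]
    have h := integral_prod_mul (μ := μ) (ν := μ) (L := ℝ) (fun x => ‖f x‖) (fun x => ‖f x‖)
    rw [h]
    ring
  -- Cauchy-Schwarz
  have hCS : A ^ 2 ≤ G * H := by
    have hq : ∀ s : ℝ, 0 ≤ G * (s * s) + (-2 * A) * s + H := by
      intro s
      have h0 : Integrable g (μ.prod μ) := by simpa using hint 0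
      have h1 : Integrable (fun p => g p * ‖Ker p‖) (μ.prod μ) := by simpa using hint 1
      have h2 := hint 2
      have e1 : G * (s * s) + (-2 * A) * s + H
          = ∫ p, (g p * (s * s) + (-2 * s) * (g p * ‖Ker p‖) + g p * ‖Ker p‖ ^ 2) ∂(μ.prod μ) := by
        have h12 : Integrable (fun p => g p * (s * s) + (-2 * s) * (g p * ‖Ker p‖)) (μ.prod μ) :=
          (h0.mul_const _).add (h1.const_mul _)
        rw [integral_add h12 h2, integral_add (h0.mul_const (s * s)) (h1.const_mul (-2 * s)),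
          integral_mul_const, integral_const_mul]
        ring
      rw [e1]
      apply integral_nonneg
      intro p
      have h3 : g p * (s * s) + (-2 * s) * (g p * ‖Ker p‖) + g p * ‖Ker p‖ ^ 2
          = g p * (s - ‖Ker p‖) ^ 2 := by ring
      simp only [Pi.zero_apply]
      rw [h3]
      exact mul_nonneg (hg0 p) (sq_nonneg _)
    have hd := discrim_le_zero hq
    unfold discrim at hd
    nlinarith
  -- the sum of squares is an integral over the product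
  have hsum : ((∑ k ∈ range K, ‖∫ x, f x * u k x ∂μ‖ ^ 2 : ℝ) : ℂ)
      = ∫ p, (f p.1 * (starRingEnd ℂ) (f p.2)) * Ker p ∂(μ.prod μ) := by
    have hk : ∀ k, ((‖∫ x, f x * u k x ∂μ‖ ^ 2 : ℝ) : ℂ)
        = ∫ p : ℝ × ℝ, (f p.1 * (starRingEnd ℂ) (f p.2)) * (u k p.1 * (starRingEnd ℂ) (u k p.2))
          ∂(μ.prod μ) := by
      intro k
      have h1 : ((‖∫ x, f x * u k x ∂μ‖ ^ 2 : ℝ) : ℂ)
          = (∫ x, f x * u k x ∂μ) * (starRingEnd ℂ) (∫ x, f x * u k x ∂μ) := by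
        rw [Complex.mul_conj, Complex.normSq_eq_norm_sq]
      rw [h1, ← integral_conj, ← integral_prod_mul]
      congr 1
      funext p
      rw [map_mul]
      ring
    push_cast
    have hk' : ∀ k ∈ range K, ((‖∫ x, f x * u k x ∂μ‖ : ℂ)) ^ 2
        = ∫ p : ℝ × ℝ, (f p.1 * (starRingEnd ℂ) (f p.2)) * (u k p.1 * (starRingEnd ℂ) (u k p.2))
          ∂(μ.prod μ) := by
      intro k _
      have := hk k
      push_cast at this
      exact this
    rw [Finset.sum_congr rfl hk', ← integral_finsetSum]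
    · congr 1
      funext p
      rw [hKer, Finset.mul_sum]
    · intro k _
      refine Integrable.of_bound ((hf1.mul (Complex.continuous_conj.comp_aestronglyMeasurable
        hf2)).mul ((hu1' k).mul (hu2' k))) (M * M) (Filter.Eventually.of_forall fun p => ?_)
      rw [norm_mul, norm_mul, norm_mul, RCLike.norm_conj, RCLike.norm_conj]
      have h1 : ‖u k p.1‖ * ‖u k p.2‖ ≤ 1 := mul_le_one₀ (hu1 _ _) (norm_nonneg _) (hu1 _ _)
      have h2 := hgb p
      have h3 := hg0 p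
      have h4 : (0 : ℝ) ≤ ‖u k p.1‖ * ‖u k p.2‖ := by positivity
      simp only [hg] at h2 h3
      nlinarith
  have hS : (∑ k ∈ range K, ‖∫ x, f x * u k x ∂μ‖ ^ 2) ≤ A := by
    have hS0 : 0 ≤ ∑ k ∈ range K, ‖∫ x, f x * u k x ∂μ‖ ^ 2 := by positivity
    have h1 : (∑ k ∈ range K, ‖∫ x, f x * u k x ∂μ‖ ^ 2)
        = ‖((∑ k ∈ range K, ‖∫ x, f x * u k x ∂μ‖ ^ 2 : ℝ) : ℂ)‖ := by
      rw [Complex.norm_real, Real.norm_eq_abs, abs_of_nonneg hS0]
    rw [h1, hsum]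
    refine (norm_integral_le_integral_norm _).trans (le_of_eq ?_)
    rw [hA]
    congr 1
    funext p
    rw [norm_mul, norm_mul, RCLike.norm_conj]
  have hS0 : 0 ≤ ∑ k ∈ range K, ‖∫ x, f x * u k x ∂μ‖ ^ 2 := by positivity
  calc (∑ k ∈ range K, ‖∫ x, f x * u k x ∂μ‖ ^ 2) ^ 2 ≤ A ^ 2 := pow_le_pow_left₀ hS0 hS 2
    _ ≤ G * H := hCS
    _ = _ := by rw [hGe]

theorem grm_thm : GRMStmt := by
  intro K u f hu hu1 hf hfM
  obtain ⟨M, hM⟩ := hfM
  have : IsFiniteMeasure mu := by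
    unfold mu
    exact ⟨by rw [Measure.restrict_apply_univ, Real.volume_Icc]; exact ENNReal.ofReal_lt_top⟩
  exact grm_core mu K u f hu hu1 hf M hM

end Pool.QN
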