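import Pool.Agent.H79.QN.Stmts

set_option autoImplicit false

namespace Pool.Agent.H79.QN

private lemma rng_core (C₁ P ρ s p s' p' : ℝ) (hC : 1 ≤ C₁) (hP : 1 ≤ P) (hρ : 1 ≤ ρ)
    (hp2 : |p| + 1 < 2 * P) (hr1 : ρ ^ 2 ≤ s ^ 2 + p ^ 2 + 1)
    (hp2' : |p'| + 1 < 2 * P)
    (hs : |s + s'| = |s| + |s'|) (hss : |s - s'| ≤ |s| + |s'|)
    (h : |(s ^ 2 + p ^ 2) - (s' ^ 2 + p' ^ 2)| ≤ 2 * C₁ * |s - s'|) :
    |s - s'| ≤ (32 + 20 * C₁ ^ 2) * (P ^ 2 / ρ) := by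
  have hρ0 : 0 < ρ := by linarith
  set u := |s - s'| with hu
  have hu0 : 0 ≤ u := abs_nonneg _
  set σ := |s + s'| with hσ
  have hσ0 : 0 ≤ σ := abs_nonneg _
  have hsle : |s| ≤ σ := by
    have := abs_nonneg s'
    linarith
  have huσ : u ≤ σ := by linarith
  have hp0 := abs_nonneg p
  have hp0' := abs_nonneg p'
  have hpsq : p ^ 2 = |p| ^ 2 := (sq_abs p).symm
  have hpsq' : p' ^ 2 = |p'| ^ 2 := (sq_abs p').symm
  have hssq : s ^ 2 = |s| ^ 2 := (sq_abs s).symm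
  have hq : p ^ 2 + 1 ≤ 4 * P ^ 2 := by
    rw [hpsq]
    nlinarith
  have hq' : p' ^ 2 + 1 ≤ 4 * P ^ 2 := by
    rw [hpsq']
    nlinarith
  have hprod : u * σ = |s ^ 2 - s' ^ 2| := by
    rw [hu, hσ, ← abs_mul]
    congr 1
    ring
  have hkey : u * σ ≤ 2 * C₁ * u + 4 * P ^ 2 := by
    rw [hprod]
    rw [abs_le] at h ⊢
    have a1 := sq_nonneg p
    have a2 := sq_nonneg p'
    constructor
    · linarith [h.1, h.2]
    · linarith [h.1, h.2]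
  have hPρ : 0 ≤ P ^ 2 / ρ := by positivity
  have hC2 : 1 ≤ C₁ ^ 2 := by nlinarith
  rcases lt_or_ge σ (4 * C₁) with h1 | h1
  · -- case 2
    have hs2 : s ^ 2 ≤ 16 * C₁ ^ 2 := by
      rw [hssq]
      have : |s| ≤ 4 * C₁ := by linarith
      have h0 := abs_nonneg s
      nlinarith
    have hP2 : 1 ≤ P ^ 2 := by nlinarith
    have hρ2 : ρ ^ 2 ≤ (5 * C₁ * P) ^ 2 := by
      have e1 : C₁ ^ 2 ≤ C₁ ^ 2 * P ^ 2 := by nlinarith
      have e2 : P ^ 2 ≤ C₁ ^ 2 * P ^ 2 := by nlinarith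
      nlinarith
    have hρ5 : ρ ≤ 5 * C₁ * P := by
      have h0 : 0 ≤ 5 * C₁ * P := by positivity
      exact (sq_le_sq₀ hρ0.le h0).1 hρ2
    have h3 : 4 * C₁ ≤ 20 * C₁ ^ 2 * (P ^ 2 / ρ) := by
      rw [← mul_div_assoc, le_div_iff₀ hρ0]
      have h4 : 4 * C₁ * ρ ≤ 4 * C₁ * (5 * C₁ * P) := by
        apply mul_le_mul_of_nonneg_left hρ5
        linarith
      have h5 : C₁ ^ 2 * P ≤ C₁ ^ 2 * P ^ 2 := by
        apply mul_le_mul_of_nonneg_left _ (by positivity)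
        nlinarith
      nlinarith
    nlinarith
  · rcases lt_or_ge σ (ρ / 4) with h2 | h2
    · -- case 3
      have hs2 : s ^ 2 ≤ ρ ^ 2 / 16 := by
        rw [hssq]
        have : |s| ≤ ρ / 4 := by linarith
        have h0 := abs_nonneg s
        nlinarith
      have h3 : ρ / 4 ≤ 2 * (P ^ 2 / ρ) := by
        rw [← mul_div_assoc, le_div_iff₀ hρ0]
        nlinarith
      have h4 : 2 * (P ^ 2 / ρ) ≤ (32 + 20 * C₁ ^ 2) * (P ^ 2 / ρ) := by
        apply mul_le_mul_of_nonneg_right _ hPρ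
        nlinarith
      linarith
    · -- case 1
      have h3 : u * (σ / 2) ≤ 4 * P ^ 2 := by
        have : u * (2 * C₁) ≤ u * (σ / 2) := mul_le_mul_of_nonneg_left (by linarith) hu0
        nlinarith
      have h4 : u * (ρ / 8) ≤ 4 * P ^ 2 := by
        have : u * (ρ / 8) ≤ u * (σ / 2) := mul_le_mul_of_nonneg_left (by linarith) hu0
        linarith
      have h5 : u ≤ 32 * (P ^ 2 / ρ) := by
        rw [← mul_div_assoc, le_div_iff₀ hρ0]
        linarith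
      have h6 : 32 * (P ^ 2 / ρ) ≤ (32 + 20 * C₁ ^ 2) * (P ^ 2 / ρ) := by
        apply mul_le_mul_of_nonneg_right _ hPρ
        nlinarith
      linarith

theorem rng : S_RNG := by
  intro C₁ hC
  refine ⟨32 + 20 * C₁ ^ 2, by positivity, ?_⟩
  intro P ρ w w' hP hρ hw hw' hSS h
  obtain ⟨hs1, -⟩ := hSS
  have hsgn : |(w.1 : ℝ) + w'.1| = |(w.1 : ℝ)| + |(w'.1 : ℝ)| := by
    rcases le_or_gt 0 w.1 with h0 | h0
    · have h0' := hs1.1 h0
      have a : (0 : ℝ) ≤ w.1 := by exact_mod_cast h0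
      have b : (0 : ℝ) ≤ w'.1 := by exact_mod_cast h0'
      rw [abs_of_nonneg a, abs_of_nonneg b, abs_of_nonneg (by linarith)]
    · have h0' : w'.1 < 0 := by
        by_contra hcon
        push Not at hcon
        exact absurd (hs1.2 hcon) (not_le.2 h0)
      have a : (w.1 : ℝ) < 0 := by exact_mod_cast h0
      have b : (w'.1 : ℝ) < 0 := by exact_mod_cast h0'
      rw [abs_of_neg a, abs_of_neg b, abs_of_neg (by linarith)]
      ring
  have hdiff : |(w.1 : ℝ) - w'.1| ≤ |(w.1 : ℝ)| + |(w'.1 : ℝ)| := abs_sub _ _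
  have hn : (nsq w : ℝ) = (w.1 : ℝ) ^ 2 + (w.2 : ℝ) ^ 2 := by
    simp [nsq]
  have hn' : (nsq w' : ℝ) = (w'.1 : ℝ) ^ 2 + (w'.2 : ℝ) ^ 2 := by
    simp [nsq]
  have hr1 := hw.r1
  rw [hn] at hr1
  rw [hn, hn'] at h
  exact rng_core C₁ P ρ w.1 w.2 w'.1 w'.2 hC hP hρ hw.p2 hr1 hw'.p2 hsgn hdiff h

end Pool.Agent.H79.QN
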